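import Mathlib

namespace Pool.Agent.Results.MP_ca4252_co.Yes

/-- The substitution `0 ↦ 01`, `1 ↦ 0`. -/
def subst (a : ℕ) : List ℕ := if a = 0 then [0, 1] else [0]

/-- The iterates of the substitution on the word `0`. -/
def iter : ℕ → List ℕ
  | 0 => [0]
  | n + 1 => (iter n).flatMap subst

/-- The Fibonacci word `0100101001001⋯`, indexed from `0` (`iter i` has length `> i`). -/
def fib (i : ℕ) : ℕ := (iter i).getD i 0

noncomputable def al : ℝ := (3 - √5) / 2

lemma s5 : √5 * √5 = 5 := Real.mul_self_sqrt (by norm_num)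
lemma s5l : 2.236 < √5 := Real.lt_sqrt_of_sq_lt (by norm_num)
lemma s5u : √5 < 2.2361 := (Real.sqrt_lt' (by norm_num)).2 (by norm_num)
lemma al2 : al * al = 3 * al - 1 := by unfold al; nlinarith [s5]
lemma all : 0.38195 < al := by unfold al; linarith [s5u]
lemma alu : al < 0.382 := by unfold al; linarith [s5l]
lemma irr : Irrational al := by
  have : Irrational √5 := by simpa using Nat.prime_five.irrational_sqrt
  have := (this.natCast_sub 3).div_natCast (m := 2) (by norm_num)
  simpa [al] using this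

lemma ne_int {d : ℕ} (hd : d ≠ 0) (m : ℤ) : (d : ℝ) * al ≠ m := (irr.natCast_mul hd).ne_int m

open Classical in
noncomputable def g (n : ℕ) : ℕ := if Int.fract ((n + 1 : ℝ) * al) < 1 - al then 0 else 1

lemma step (L : ℕ) : ∃ p : ℕ, L < p + 1 ∧ (0 < L → L < p) ∧
    ((List.range L).map g).flatMap subst = (List.range p).map g ∧
    (p : ℝ) = 2 * L - ⌊(L + 1 : ℝ) * al⌋ := by
  have a1 := all
  have a2 := alu
  induction L with
  | zero =>
    refine ⟨0, by simp, by simp, by simp, ?_⟩
    have : ⌊al⌋ = 0 := Int.floor_eq_zero_iff.2 ⟨by linarith, by linarith⟩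
    simp [this]
  | succ L ih =>
    obtain ⟨p, h1, h1', h2, h3⟩ := ih
    obtain ⟨m, hm⟩ : ∃ m, m = ⌊(L + 1 : ℝ) * al⌋ := ⟨_, rfl⟩
    obtain ⟨θ, hθ⟩ : ∃ θ, θ = Int.fract ((L + 1 : ℝ) * al) := ⟨_, rfl⟩
    have e : (L + 1 : ℝ) * al = m + θ := by rw [hm, hθ, Int.floor_add_fract]
    have t0 : 0 < θ := by
      refine lt_of_le_of_ne (hθ ▸ Int.fract_nonneg _) fun h => ?_
      exact ne_int (d := L + 1) (by omega) m (by push_cast; rw [e, ← h, add_zero])
    have t1 : θ < 1 := hθ ▸ Int.fract_lt_one _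
    rw [← hm] at h3
    have k1 : (p + 1 : ℝ) * al = ((L - m : ℤ) : ℝ) + (1 - θ) * (1 - al) := by
      push_cast
      have : (m : ℝ) = (L + 1) * al - θ := by linarith
      rw [h3, this]
      linear_combination (-(L + 1 : ℝ)) * al2
    have f1 : Int.fract ((p + 1 : ℝ) * al) = (1 - θ) * (1 - al) := by
      rw [k1, Int.fract_intCast_add, Int.fract_eq_self.2 ⟨by nlinarith, by nlinarith⟩]
    have g1 : g p = 0 := by rw [g, f1, if_pos (by nlinarith)]
    rw [List.range_succ, List.map_append, List.flatMap_append, h2]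
    by_cases hc : θ < 1 - al
    · have g0 : g L = 0 := by rw [g, ← hθ, if_pos hc]
      have g2 : g (p + 1) = 1 := by
        have : ((p + 1 : ℕ) + 1 : ℝ) * al = ((L - m : ℤ) : ℝ) + ((1 - θ) * (1 - al) + al) := by
          push_cast at k1 ⊢; linarith
        rw [g, this, Int.fract_intCast_add, Int.fract_eq_self.2 ⟨by nlinarith, by nlinarith⟩,
          if_neg (by nlinarith [al2])]
      refine ⟨p + 2, by omega, by omega, by simp [List.range_succ, g0, g1, g2, subst], ?_⟩
      have : ⌊((L + 1 : ℕ) + 1 : ℝ) * al⌋ = m := by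
        rw [Int.floor_eq_iff]; push_cast; constructor <;> linarith
      rw [this]; push_cast; linarith
    · have g0 : g L = 1 := by rw [g, ← hθ, if_neg hc]
      have hL : 0 < L := by
        rcases Nat.eq_zero_or_pos L with rfl | h
        · exfalso
          have : m = 0 := by
            rw [hm]; exact Int.floor_eq_zero_iff.2 ⟨by simp; linarith, by simp; linarith⟩
          simp [this] at e; linarith
        · exact h
      have := h1' hL
      refine ⟨p + 1, by omega, by omega, by simp [List.range_succ, g0, g1, subst], ?_⟩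
      have : ⌊((L + 1 : ℕ) + 1 : ℝ) * al⌋ = m + 1 := by
        rw [Int.floor_eq_iff]; push_cast; constructor <;> linarith
      rw [this]; push_cast; linarith

lemma iter_eq (n : ℕ) : ∃ L, n < L ∧ iter n = (List.range L).map g := by
  induction n with
  | zero =>
    refine ⟨1, by simp, ?_⟩
    have : g 0 = 0 := by
      rw [g, if_pos]
      simp only [Nat.cast_zero, zero_add, one_mul]
      rw [Int.fract_eq_self.2 ⟨by linarith [all], by linarith [alu]⟩]; linarith [alu]
    simp [iter, this]
  | succ n ih =>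
    obtain ⟨L, h1, h2⟩ := ih
    obtain ⟨p, -, h3, h4, -⟩ := step L
    exact ⟨p, by have := h3 (by omega); omega, by rw [iter, h2, h4]⟩

lemma fib_eq (i : ℕ) : fib i = g i := by
  obtain ⟨L, h1, h2⟩ := iter_eq i
  simp [fib, h2, h1]

lemma nojump (y η u l : ℝ) (n : ℕ) (h : ∀ j ≤ n, ∃ a : ℤ, u ≤ y + j * η - a ∧ y + j * η - a < u + l)
    (hη : |η| ≤ 1 - l) : n * |η| < l := by
  obtain ⟨a, a1, a2⟩ := h 0 (by omega)
  have : ∀ j ≤ n, u ≤ y + j * η - a ∧ y + j * η - a < u + l := by
    intro j
    induction j with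
    | zero => exact fun _ => ⟨a1, a2⟩
    | succ j ih =>
      intro hj
      obtain ⟨b1, b2⟩ := ih (by omega)
      obtain ⟨b, c1, c2⟩ := h (j + 1) hj
      have := abs_le.1 hη
      push_cast at c1 c2 ⊢
      have e1 : (a : ℝ) < b + 1 := by linarith
      have e2 : (b : ℝ) < a + 1 := by linarith
      have : a = b := by
        have : a < b + 1 := by exact_mod_cast e1
        have : b < a + 1 := by exact_mod_cast e2
        omega
      rw [this]; exact ⟨c1, c2⟩
  obtain ⟨b1, b2⟩ := this n le_rfl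
  simp only [Nat.cast_zero, zero_mul, add_zero] at a1 a2
  rw [← Nat.abs_cast n, ← abs_mul, abs_lt]
  constructor <;> linarith

lemma norm (d : ℕ) (hd : d ≠ 0) (m : ℤ) (ε : ℝ) (h : ε = d * al - m) (h1 : |ε| ≤ 1) :
    1 ≤ |ε| * (d * √5 + ε) := by
  have d1 : (1 : ℝ) ≤ d := by exact_mod_cast Nat.one_le_iff_ne_zero.2 hd
  have p : 0 < d * √5 + ε := by nlinarith [s5l, abs_le.1 h1]
  have e : ε * (d * √5 + ε) = ((d * d - 3 * d * m + m * m : ℤ) : ℝ) := by
    have : √5 = 3 - 2 * al := by unfold al; ring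
    rw [this, h]; push_cast
    linear_combination (-(d : ℝ) ^ 2) * al2
  have ne : (d * d - 3 * d * m + m * m : ℤ) ≠ 0 := by
    intro h0
    rw [h0, Int.cast_zero, mul_eq_zero] at e
    rcases e with e | e
    · exact ne_int hd m (by linarith)
    · exact p.ne' e
  rw [← abs_of_pos p, ← abs_mul, e]
  exact_mod_cast Int.one_le_abs ne

lemma half (z : ℕ → ℝ) (e : ℝ) (e1 : al ≤ e) (e2 : e ≤ 1 - al) (n : ℕ)
    (hz : ∀ j ≤ 2 * n + 2, 0 ≤ z j ∧ z j < 1 - al) (hs : ∀ j, ∃ b : ℤ, z (j + 1) = z j + e - b) :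
    (2 * n + 1) * |2 * e - 1| < 1 - 2 * al := by
  have a1 := all
  have b01 : ∀ j, j + 1 ≤ 2 * n + 2 → z (j + 1) = z j + e ∨ z (j + 1) = z j + e - 1 := by
    intro j hj
    obtain ⟨b, hb⟩ := hs j
    have := hz j (by omega)
    have := hz (j + 1) hj
    have c1 : (-1 : ℝ) < b := by linarith
    have c2 : (b : ℝ) < 2 := by linarith
    have : -1 < b := by exact_mod_cast c1
    have : b < 2 := by exact_mod_cast c2
    obtain rfl | rfl : b = 0 ∨ b = 1 := by omega
    · left; simpa using hb
    · right; simpa using hb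
  have two : ∀ j, j + 2 ≤ 2 * n + 2 → z (j + 2) = z j + (2 * e - 1) := by
    intro j hj
    have := hz j (by omega)
    have := hz (j + 1) (by omega)
    have := hz (j + 2) hj
    rcases b01 j (by omega) with h | h <;> rcases b01 (j + 1) (by omega) with h' | h' <;> linarith
  have it : ∀ r j, 2 * j + r ≤ 2 * n + 2 → z (2 * j + r) = z r + j * (2 * e - 1) := by
    intro r j
    induction j with
    | zero => simp
    | succ j ih =>
      intro h
      rw [show 2 * (j + 1) + r = 2 * j + r + 2 by ring, two _ (by omega), ih (by omega)]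
      push_cast; ring
  have p0 := hz 0 (by omega)
  have p1 := hz 1 (by omega)
  have p2 := hz (2 * 1 + 0) (by omega)
  have p3 := hz (2 * n + 0) (by omega)
  have p4 := hz (2 * n + 1) (by omega)
  have p5 := hz (2 * (n + 1) + 0) (by omega)
  rw [it _ _ (by omega)] at p2 p3 p4 p5
  push_cast at p2 p5
  rcases abs_cases (2 * e - 1) with h | h <;> rw [h.1] <;> rcases b01 0 (by omega) with h' | h' <;>
    simp only [zero_add] at h' <;> linarith [p0.1, p0.2, p1.1, p1.2, p2.1, p2.2, p3.1, p3.2, p4.1,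
      p4.2, p5.1, p5.2]

lemma bound (d : ℕ) (hd : 1 ≤ d) (i k : ℕ) (h : ∀ j ≤ k, g (i + j * d) = g i) :
    (k : ℝ) < d * (1 + al) := by
  have a1 := all
  have a2 := alu
  have b1 := s5l
  have b2 := s5u
  have hs : √5 = 3 - 2 * al := by unfold al; ring
  have d1 : (1 : ℝ) ≤ d := by exact_mod_cast hd
  obtain ⟨m, hm⟩ : ∃ m, m = round (d * al) := ⟨_, rfl⟩
  obtain ⟨ε, hε⟩ : ∃ ε, ε = d * al - m := ⟨_, rfl⟩
  have ε1 : |ε| ≤ 1 / 2 := by rw [hε, hm]; exact abs_sub_round _
  have N := norm d (by omega) m ε hε (by linarith)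
  have k0 : (0 : ℝ) ≤ k := by positivity
  have p : 0 < d * √5 + ε := by nlinarith [abs_le.1 ε1]
  obtain ⟨z, hz⟩ : ∃ z : ℕ → ℝ, ∀ j, z j = Int.fract (((i + j * d : ℕ) + 1 : ℝ) * al) :=
    ⟨_, fun _ => rfl⟩
  have zz : ∀ j : ℕ, ∃ a : ℤ, (i + 1) * al + j * ε - a = z j := fun j =>
    ⟨⌊((i + j * d : ℕ) + 1 : ℝ) * al⌋ - j * m, by
      rw [hz, Int.fract, hε]; push_cast; ring⟩
  have z0 : ∀ j, 0 ≤ z j := fun j => hz j ▸ Int.fract_nonneg _
  have z1 : ∀ j, z j < 1 := fun j => hz j ▸ Int.fract_lt_one _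
  have kb : ∀ l, k * |ε| < l → k < l * (d * √5 + ε) := fun l hl => by nlinarith
  by_cases hc : g i = 0
  · have c : ∀ j ≤ k, z j < 1 - al := fun j hj => by
      have := h j hj
      rw [hc, g, ← hz] at this
      by_contra hn
      simp [hn] at this
    by_cases hε2 : |ε| ≤ al
    · have := kb _ (nojump ((i + 1) * al) ε 0 (1 - al) k (fun j hj => by
        obtain ⟨a, ha⟩ := zz j
        exact ⟨a, ha ▸ z0 j, by rw [ha]; linarith [c j hj]⟩) (by linarith))
      have e : (1 - al) * (d * √5 + ε) = d * (1 + al) + (1 - al) * ε := by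
        rw [hs]; linear_combination (2 * (d : ℝ)) * al2
      rw [e] at this
      rcases le_or_gt ε 0 with h0 | h0
      · nlinarith
      · have : (k : ℝ) < d + m + 1 := by nlinarith [abs_le.1 hε2]
        have : (k : ℤ) < d + m + 1 := by exact_mod_cast this
        have : (k : ℤ) ≤ d + m := by omega
        have : (k : ℝ) ≤ d + m := by exact_mod_cast this
        linarith
    · by_cases hk : k < 2
      · have : (k : ℝ) ≤ 1 := by exact_mod_cast (by omega : k ≤ 1)
        nlinarith
      obtain ⟨n, hn⟩ : ∃ n, n = (k - 2) / 2 := ⟨_, rfl⟩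
      obtain ⟨M, hM1, hM2⟩ : ∃ M : ℤ, al ≤ d * al - M ∧ d * al - M ≤ 1 - al := by
        push Not at hε2
        rcases abs_cases ε with h0 | h0
        · exact ⟨m, by linarith, by linarith⟩
        · exact ⟨m - 1, by push_cast; linarith, by push_cast; linarith⟩
      have H := half z _ hM1 hM2 n (fun j hj => ⟨z0 j, c j (by omega)⟩) (fun j => by
        obtain ⟨a, ha⟩ := zz j
        obtain ⟨b, hb⟩ := zz (j + 1)
        exact ⟨b - a + m - M, by rw [← ha, ← hb, hε]; push_cast; ring⟩)
      have kn : (k : ℝ) ≤ 2 * n + 3 := by exact_mod_cast (by omega : k ≤ 2 * n + 3)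
      have n0 : (0 : ℝ) ≤ n := by positivity
      obtain ⟨δ, hδ⟩ : ∃ δ, δ = 2 * (d * al - M) - 1 := ⟨_, rfl⟩
      rw [← hδ] at H
      have δ1 : |δ| ≤ 1 - 2 * al := abs_le.2 ⟨by linarith, by linarith⟩
      by_cases d7 : 7 ≤ d
      · have N2 := norm (2 * d) (by omega) (2 * M + 1) δ (by rw [hδ]; push_cast; ring) (by linarith)
        have d7 : (7 : ℝ) ≤ d := by exact_mod_cast d7
        push_cast at N2
        have q : 0 < 2 * d * √5 + δ := by nlinarith [abs_le.1 δ1]
        have : 2 * n + 1 < (1 - 2 * al) * (2 * d * √5 + δ) := by nlinarith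
        have : (1 - 2 * al) * (2 * d * √5 + δ) ≤ 0.2361 * (2 * d * 2.2361 + 0.2361) := by
          have := abs_le.1 δ1
          gcongr <;> linarith
        nlinarith
      · have hM : ∀ a : ℤ, (a : ℝ) - 1 < M → (M : ℝ) < a + 1 → M = a := fun a p q => by
          have : a - 1 < M := by exact_mod_cast p
          have : M < a + 1 := by exact_mod_cast q
          omega
        have hN : ∀ a : ℤ, (a : ℝ) < M → (M : ℝ) < a + 1 → False := fun a p q => by
          have : a < M := by exact_mod_cast p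
          have : M < a + 1 := by exact_mod_cast q
          omega
        push Not at d7
        interval_cases d <;> push_cast at *
        · obtain rfl := hM 0 (by push_cast; linarith) (by push_cast; linarith)
          rw [abs_of_neg (by push_cast at hδ; linarith)] at H
          push_cast at hδ
          nlinarith
        · exact (hN 0 (by push_cast; linarith) (by push_cast; linarith)).elim
        · exact (hN 0 (by push_cast; linarith) (by push_cast; linarith)).elim
        · obtain rfl := hM 1 (by push_cast; linarith) (by push_cast; linarith)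
          push_cast at hδ
          rw [abs_of_pos (by linarith)] at H
          have : (n : ℝ) < 2 := by nlinarith
          have : n < 2 := by exact_mod_cast this
          have : (n : ℝ) ≤ 1 := by exact_mod_cast (by omega : n ≤ 1)
          linarith
        · exact (hN 1 (by push_cast; linarith) (by push_cast; linarith)).elim
        · exact (hN 1 (by push_cast; linarith) (by push_cast; linarith)).elim
  · have c : ∀ j ≤ k, 1 - al ≤ z j := fun j hj => by
      have := h j hj
      rw [g, ← hz] at this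
      by_contra hn
      rw [if_pos (not_le.1 hn)] at this
      exact hc this.symm
    have := kb _ (nojump ((i + 1) * al) ε (1 - al) al k (fun j hj => by
      obtain ⟨a, ha⟩ := zz j
      exact ⟨a, ha ▸ c j hj, by rw [ha]; linarith [z1 j]⟩) (by linarith))
    have h2 : al * (d * √5 + ε) ≤ 0.382 * (d * 2.2361 + 1 / 2) := by
      have := abs_le.1 ε1
      gcongr; linarith
    nlinarith

theorem result (d : ℕ) (hd : 1 ≤ d) :
    ∃ A : ℕ, IsGreatest {k | ∃ i, ∀ j < k, fib (i + j * d) = fib i} A ∧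
      ((A : ℝ) - 1) / d < √5 / Real.goldenRatio := by
  have d0 : (0 : ℝ) < d := by exact_mod_cast hd
  have key : ∀ k ∈ {k | ∃ i, ∀ j < k, fib (i + j * d) = fib i}, (k : ℝ) - 1 < d * (1 + al) := by
    rintro k ⟨i, hi⟩
    rcases k with _ | k
    · have := all; simp; nlinarith
    · simpa using bound d hd i k fun j hj => by simpa only [fib_eq] using hi j (by omega)
  obtain ⟨N, hN⟩ := exists_nat_ge (d * (1 + al) + 1)
  have hb : BddAbove {k | ∃ i, ∀ j < k, fib (i + j * d) = fib i} :=
    ⟨N, fun k hk => by exact_mod_cast (by linarith [key k hk] : (k : ℝ) ≤ N)⟩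
  have hm := Nat.sSup_mem (s := {k | ∃ i, ∀ j < k, fib (i + j * d) = fib i}) ⟨0, 0, by simp⟩ hb
  refine ⟨_, ⟨hm, fun k hk => le_csSup hb hk⟩, ?_⟩
  have : √5 / Real.goldenRatio = 1 + al := by
    rw [div_eq_iff Real.goldenRatio_ne_zero, al, Real.goldenRatio]
    nlinarith [s5]
  rw [this, div_lt_iff₀ d0, mul_comm]
  exact key _ hm

end Pool.Agent.Results.MP_ca4252_co.Yes
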